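import Pool.Agent.H22.AN.TB1

/-!
# Board allh_modules, row CHF: facts on the cutoff (adapted from Pool/Agent/H45/D3/CHF.lean)
-/

set_option autoImplicit false

open Set Filter Topology
open scoped ContDiff

namespace Pool.Agent.H68.AN.CHF

open Pool.Agent.H87.SN Pool.Agent.H22.AN

theorem st_deriv_neg (t : ℝ) (h : t < 0) : deriv Real.smoothTransition t = 0 := by
  have h1 : Real.smoothTransition =ᶠ[𝓝 t] fun _ => (0 : ℝ) :=
    (eventually_lt_nhds h).mono fun s hs => Real.smoothTransition.zero_of_nonpos hs.le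
  rw [h1.deriv_eq, deriv_const]

theorem st_deriv_big (t : ℝ) (h : 1 < t) : deriv Real.smoothTransition t = 0 := by
  have h1 : Real.smoothTransition =ᶠ[𝓝 t] fun _ => (1 : ℝ) :=
    (eventually_gt_nhds h).mono fun s hs => Real.smoothTransition.one_of_one_le hs.le
  rw [h1.deriv_eq, deriv_const]

theorem st_bd : ∃ K : ℝ, 0 ≤ K ∧ ∀ t, |deriv Real.smoothTransition t| ≤ K := by
  have hc : Continuous (deriv Real.smoothTransition) :=
    (Real.smoothTransition.contDiff (n := 1)).continuous_deriv le_rfl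
  obtain ⟨K, hK⟩ := (isCompact_Icc (a := (0 : ℝ)) (b := 1)).exists_bound_of_continuousOn
    hc.continuousOn
  have hK0 : 0 ≤ K := (norm_nonneg _).trans (hK 0 ⟨le_rfl, zero_le_one⟩)
  refine ⟨K, hK0, fun t => ?_⟩
  rcases lt_or_ge t 0 with h | h
  · rw [st_deriv_neg t h, abs_zero]
    exact hK0
  · rcases lt_or_ge 1 t with h1 | h1
    · rw [st_deriv_big t h1, abs_zero]
      exact hK0
    · exact hK t ⟨h, h1⟩

/-- the coordinate -/
noncomputable def pj {d : ℕ} (i : Fin (d + 2)) : V d →L[ℝ] ℝ := EuclideanSpace.proj i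

theorem pj_app {d : ℕ} (i : Fin (d + 2)) (x : V d) : pj i x = x i := rfl

/-- the argument of the transition -/
noncomputable def gg {d : ℕ} (h : ℝ) (x : V d) : ℝ := (4 - (x 0 ^ 2 + x 1 ^ 2) / h ^ 2) / 3

/-- its derivative -/
noncomputable def gl {d : ℕ} (h : ℝ) (x : V d) : V d →L[ℝ] ℝ :=
  (-(2 / (3 * h ^ 2))) • (x 0 • pj 0 + x 1 • pj 1)

theorem gl_app {d : ℕ} (h : ℝ) (x v : V d) :
    gl h x v = -(2 / (3 * h ^ 2)) * (x 0 * v 0 + x 1 * v 1) := rfl

theorem gg_hd {d : ℕ} (h : ℝ) (hh : 0 < h) (x : V d) : HasFDerivAt (gg h) (gl h x) x := by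
  have h0 : HasFDerivAt (fun x : V d => x 0 ^ 2) ((2 * x 0) • pj 0) x := by
    have h1 := ((pj (d := d) 0).hasFDerivAt (x := x)).pow 2
    have h2 : (2 * x 0) • pj (d := d) 0 = (((2 : ℕ) • (pj 0 x) ^ (2 - 1)) • pj 0) := by
      ext v
      simp [pj_app]
    rw [h2]
    exact h1
  have h1 : HasFDerivAt (fun x : V d => x 1 ^ 2) ((2 * x 1) • pj 1) x := by
    have h1 := ((pj (d := d) 1).hasFDerivAt (x := x)).pow 2
    have h2 : (2 * x 1) • pj (d := d) 1 = (((2 : ℕ) • (pj 1 x) ^ (2 - 1)) • pj 1) := by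
      ext v
      simp [pj_app]
    rw [h2]
    exact h1
  have h2 := ((h0.add h1).const_mul (1 / (3 * h ^ 2))).const_sub (4 / 3)
  have h3 : gg h = fun x : V d => 4 / 3 - 1 / (3 * h ^ 2) * (x 0 ^ 2 + x 1 ^ 2) := by
    funext x
    unfold gg
    field_simp
  have h4 : gl h x = -((1 / (3 * h ^ 2)) • ((2 * x 0) • pj 0 + (2 * x 1) • pj 1)) := by
    ext v
    rw [gl_app]
    simp only [ContinuousLinearMap.neg_apply, ContinuousLinearMap.smul_apply,
      ContinuousLinearMap.add_apply, pj_app, smul_eq_mul]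
    ring
  rw [h3, h4]
  exact h2

theorem chh_hd {d : ℕ} (h : ℝ) (hh : 0 < h) (x : V d) :
    HasFDerivAt (chh h) (deriv Real.smoothTransition (gg h x) • gl h x) x := by
  have h1 : HasDerivAt Real.smoothTransition (deriv Real.smoothTransition (gg h x)) (gg h x) :=
    ((Real.smoothTransition.contDiff (n := 1)).differentiable one_ne_zero _).hasDerivAt
  exact h1.comp_hasFDerivAt x (gg_hd h hh x)

theorem chh_fd {d : ℕ} (h : ℝ) (hh : 0 < h) (x : V d) :
    fderiv ℝ (chh h) x = deriv Real.smoothTransition (gg h x) • gl h x := (chh_hd h hh x).fderiv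

theorem chh_fd0 {d : ℕ} (h : ℝ) (hh : 0 < h) (x : V d)
    (h0 : deriv Real.smoothTransition (gg h x) = 0) : fderiv ℝ (chh h) x = 0 := by
  rw [chh_fd h hh x, h0, zero_smul]

theorem chh_cd (d : ℕ) (h : ℝ) : ContDiff ℝ ∞ (chh (d := d) h) := by
  have h0 : ContDiff ℝ ∞ (fun x : V d => x 0) := (pj 0).contDiff
  have h1 : ContDiff ℝ ∞ (fun x : V d => x 1) := (pj 1).contDiff
  have h2 : ContDiff ℝ ∞ (gg (d := d) h) :=
    ((contDiff_const.sub (((h0.pow 2).add (h1.pow 2)).div_const _)).div_const _)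
  exact (Real.smoothTransition.contDiff (n := ⊤)).comp h2

theorem rho_sq {d : ℕ} (x : V d) : rho x ^ 2 = x 0 ^ 2 + x 1 ^ 2 := Real.sq_sqrt (by positivity)

theorem rho_nonneg {d : ℕ} (x : V d) : 0 ≤ rho x := Real.sqrt_nonneg _

theorem gg_eq {d : ℕ} (h : ℝ) (x : V d) : gg h x = (4 - rho x ^ 2 / h ^ 2) / 3 := by
  rw [rho_sq]
  rfl

theorem gg_one_le {d : ℕ} (h : ℝ) (hh : 0 < h) (x : V d) (hx : rho x ≤ h) : 1 ≤ gg h x := by
  rw [gg_eq]
  have h1 : rho x ^ 2 / h ^ 2 ≤ 1 := by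
    rw [div_le_one (by positivity)]
    exact pow_le_pow_left₀ (rho_nonneg x) hx 2
  linarith

theorem gg_one_lt {d : ℕ} (h : ℝ) (hh : 0 < h) (x : V d) (hx : rho x < h) : 1 < gg h x := by
  rw [gg_eq]
  have h1 : rho x ^ 2 / h ^ 2 < 1 := by
    rw [div_lt_one (by positivity)]
    exact pow_lt_pow_left₀ hx (rho_nonneg x) (by norm_num)
  linarith

theorem gg_nonpos {d : ℕ} (h : ℝ) (hh : 0 < h) (x : V d) (hx : 2 * h ≤ rho x) : gg h x ≤ 0 := by
  rw [gg_eq]
  have h1 : 4 ≤ rho x ^ 2 / h ^ 2 := by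
    rw [le_div_iff₀ (by positivity)]
    have := pow_le_pow_left₀ (by positivity) hx 2
    linarith
  linarith

theorem gg_neg {d : ℕ} (h : ℝ) (hh : 0 < h) (x : V d) (hx : 2 * h < rho x) : gg h x < 0 := by
  rw [gg_eq]
  have h1 : 4 < rho x ^ 2 / h ^ 2 := by
    rw [lt_div_iff₀ (by positivity)]
    have := pow_lt_pow_left₀ hx (by positivity) (by norm_num : (2 : ℕ) ≠ 0)
    linarith
  linarith

theorem abs_co_le {d : ℕ} (x : V d) (i : Fin (d + 2)) : |x i| ≤ ‖x‖ := by
  have h := EuclideanSpace.norm_eq x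
  rw [h, ← Real.norm_eq_abs]
  refine Real.le_sqrt_of_sq_le ?_
  exact Finset.single_le_sum (f := fun j => ‖x j‖ ^ 2) (fun j _ => sq_nonneg _)
    (Finset.mem_univ i)

theorem abs0_le {d : ℕ} (x : V d) : |x 0| ≤ rho x :=
  Real.abs_le_sqrt (by linarith [sq_nonneg (x 1)])

theorem abs1_le {d : ℕ} (x : V d) : |x 1| ≤ rho x :=
  Real.abs_le_sqrt (by linarith [sq_nonneg (x 0)])

end Pool.Agent.H68.AN.CHF

namespace Pool.Agent.H68.AN

open Pool.Agent.H87.SN Pool.Agent.H22.AN Pool.Agent.H68.AN.CHF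

theorem pf_CHF : T_CHF := by
  obtain ⟨K, hK0, hK⟩ := st_bd
  refine ⟨8 / 3 * K, by positivity, fun d h hh => ⟨chh_cd d h, ?_, ?_, ?_, ?_, ?_, ?_, ?_⟩⟩
  · exact fun x => ⟨Real.smoothTransition.nonneg _, Real.smoothTransition.le_one _⟩
  · exact fun x hx => Real.smoothTransition.one_of_one_le (gg_one_le h hh x hx)
  · exact fun x hx => Real.smoothTransition.zero_of_nonpos (gg_nonpos h hh x hx)
  · intro x v
    rcases lt_or_ge (2 * h) (rho x) with hx | hx
    · rw [chh_fd0 h hh x (st_deriv_neg _ (gg_neg h hh x hx))]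
      simp only [ContinuousLinearMap.zero_apply, abs_zero]
      positivity
    · rw [chh_fd h hh x, ContinuousLinearMap.smul_apply, smul_eq_mul, gl_app, abs_mul, abs_mul,
        abs_neg, abs_of_pos (by positivity : (0 : ℝ) < 2 / (3 * h ^ 2))]
      have e1 : |x 0 * v 0 + x 1 * v 1| ≤ 4 * h * ‖v‖ := by
        refine (abs_add_le _ _).trans ?_
        rw [abs_mul, abs_mul]
        have a0 : |x 0| * |v 0| ≤ (2 * h) * ‖v‖ :=
          mul_le_mul ((abs0_le x).trans hx) (abs_co_le v 0) (abs_nonneg _) (by positivity)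
        have a1 : |x 1| * |v 1| ≤ (2 * h) * ‖v‖ :=
          mul_le_mul ((abs1_le x).trans hx) (abs_co_le v 1) (abs_nonneg _) (by positivity)
        linarith
      have e2 : 2 / (3 * h ^ 2) * |x 0 * v 0 + x 1 * v 1| ≤ 2 / (3 * h ^ 2) * (4 * h * ‖v‖) :=
        mul_le_mul_of_nonneg_left e1 (by positivity)
      have e3 := mul_le_mul (hK (gg h x)) e2 (by positivity) hK0
      refine e3.trans (le_of_eq ?_)
      field_simp
      ring
  · intro x i
    rw [chh_fd h hh x, ContinuousLinearMap.smul_apply, gl_app]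
    have b0 : (bv (Fin.succ (Fin.succ i)) : V d) 0 = 0 := by
      have hne : (0 : Fin (d + 2)) ≠ Fin.succ (Fin.succ i) := (Fin.succ_ne_zero _).symm
      simp [bv, hne]
    have b1 : (bv (Fin.succ (Fin.succ i)) : V d) 1 = 0 := by
      have hne : (1 : Fin (d + 2)) ≠ Fin.succ (Fin.succ i) := by
        intro h
        have h2 : Fin.succ (0 : Fin (d + 1)) = Fin.succ (Fin.succ i) := by
          rw [Fin.succ_zero_eq_one]
          exact h
        exact (Fin.succ_ne_zero i).symm (Fin.succ_injective _ h2)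
      simp [bv, hne]
    rw [b0, b1]
    simp
  · exact fun x hx => chh_fd0 h hh x (st_deriv_big _ (gg_one_lt h hh x hx))
  · exact fun x hx => chh_fd0 h hh x (st_deriv_neg _ (gg_neg h hh x hx))

end Pool.Agent.H68.AN
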