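import Pool.Agent.H80.AN.TargetsA

/-! Local bound of the Hessian, all dimensions (row HLC of the board allh; adapted from the three
dimensional version `Pool.Agent.H70.D3.HLC`). -/

set_option autoImplicit false

namespace Pool.Agent.H68.AN

open MeasureTheory Metric Set Filter Topology Pool.Agent.H87.SN Pool.Agent.H87.SH Pool.Agent.H87.AX
  Pool.Agent.H22.AN
open scoped ContDiff RealInnerProductSpace ENNReal

private theorem hlc_en_nonneg {n m : ℕ} (u : E n → E m) (y : E n) : 0 ≤ en u y := by
  unfold en nsq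
  positivity

private theorem hlc_hsq_nonneg {n m : ℕ} (u : E n → E m) (y : E n) : 0 ≤ hsq u y := by
  unfold hsq
  positivity

/-- the integral of the norm of the Hessian by the integral of its square -/
private theorem hlc_young {n m : ℕ} (u : E n → E m) (S : Set (E n)) (a : ℝ) (ha : 0 < a) :
    hInt u S ≤ ENNReal.ofReal (a / 2) * volume S +
      ENNReal.ofReal (1 / (2 * a)) * ∫⁻ y in S, ENNReal.ofReal (hsq u y) := by
  unfold hInt
  calc ∫⁻ y in S, ENNReal.ofReal (Real.sqrt (hsq u y)) ≤
        ∫⁻ y in S, (ENNReal.ofReal (a / 2) +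
          ENNReal.ofReal (1 / (2 * a)) * ENNReal.ofReal (hsq u y)) := by
        refine lintegral_mono fun y => ?_
        rw [← ENNReal.ofReal_mul (by positivity), ← ENNReal.ofReal_add (by positivity)
          (mul_nonneg (by positivity) (hlc_hsq_nonneg u y))]
        refine ENNReal.ofReal_le_ofReal ?_
        have h1 := Real.sq_sqrt (hlc_hsq_nonneg u y)
        set w := Real.sqrt (hsq u y) with hw
        rw [← h1]
        have h2 : a / 2 + 1 / (2 * a) * w ^ 2 - w = (a - w) ^ 2 / (2 * a) := by
          field_simp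
          ring
        have h3 : 0 ≤ (a - w) ^ 2 / (2 * a) := by positivity
        linarith
    _ = _ := by
        rw [lintegral_add_left measurable_const, lintegral_const_mul' _ _ ENNReal.ofReal_ne_top,
          setLIntegral_const]

theorem pf_HLC (hLHE : Pool.Agent.H87.SH.T_LHE) (hMUF : T_MUF) : T_HLC := by
  intro d m L Λ ε e hL hEP
  obtain ⟨C0, hC0, hH⟩ := hLHE (d + 2) m L hL
  set v : ℝ := (volume (ball (0 : V d) 1)).toReal with hv
  have hv0 : 0 ≤ v := ENNReal.toReal_nonneg
  refine ⟨v + 128 * C0, by positivity, ?_⟩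
  intro U u G hSM x R hR hball hth
  have hep := hEP U u G hSM x R hR hball hth
  have hsub : ball x (R / 16) ⊆ U := fun y hy =>
    (hep y (ball_subset_ball (by linarith) hy)).1
  have hsub2 : ball x (R / 32) ⊆ U := fun y hy =>
    (hep y (ball_subset_ball (by linarith) hy)).1
  refine ⟨hsub2, ?_⟩
  have hfin := (hMUF d m G hSM.gd.memG).1
  have hR16 : 0 < R / 16 := by positivity
  have hHM : HM (d + 2) m L (ball x (R / 16)) u :=
    ⟨hSM.smooth.mono hsub, fun y hy w => hSM.orth y (hsub hy) w, fun y hy => hSM.lapb y (hsub hy)⟩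
  have h1 := hH u x (R / 16) hR16 hHM (fun y hy => by
    have h2 := (hep y (ball_subset_ball (by linarith) hy)).2
    have h3 := hlc_en_nonneg u y
    have h4 : 0 ≤ R ^ 2 * en u y := by positivity
    have h5 : (R / 16) ^ 2 * en u y = R ^ 2 * en u y / 256 := by ring
    rw [h5]
    linarith)
  have e32 : R / 16 / 2 = R / 32 := by ring
  rw [e32] at h1
  -- the energy
  have hE : ∫⁻ y in ball x (R / 16), ENNReal.ofReal (en u y) =
      ENNReal.ofReal (th G x (R / 16) * (R / 16) ^ d) := by
    have h2 : ∫⁻ y in ball x (R / 16), ENNReal.ofReal (en u y) = mu G (ball x (R / 16)) := by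
      unfold mu
      rw [withDensity_apply _ measurableSet_ball, Measure.restrict_restrict measurableSet_ball,
        inter_eq_self_of_subset_left ((ball_subset_ball (by linarith)).trans hball)]
      refine lintegral_congr_ae ?_
      have h3 := ae_restrict_of_ae_restrict_of_subset hsub hSM.ae
      filter_upwards [h3] with y hy
      rw [hy]
      rfl
    rw [h2]
    have h4 : mu G (ball x (R / 16)) ≠ ⊤ := ne_top_of_le_ne_top hfin (measure_mono (subset_univ _))
    unfold th
    have h6 : (R / 16) ^ d ≠ 0 := (pow_pos hR16 d).ne'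
    rw [div_mul_cancel₀ _ h6]
    exact (ENNReal.ofReal_toReal h4).symm
  rw [hE] at h1
  set θ := th G x (R / 16) with hθ
  have hθ0 : 0 ≤ θ := div_nonneg ENNReal.toReal_nonneg (pow_pos hR16 d).le
  have hvol : volume (ball x (R / 32)) = ENNReal.ofReal ((R / 32) ^ (d + 2) * v) := by
    rw [Measure.addHaar_ball_of_pos volume x (by positivity : (0 : ℝ) < R / 32)]
    have h5 : Module.finrank ℝ (V d) = d + 2 := by
      rw [finrank_euclideanSpace_fin]
    rw [h5, ENNReal.ofReal_mul (by positivity), hv,
      ENNReal.ofReal_toReal (measure_ball_lt_top).ne]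
  have hp1 : (R / 32) ^ (d + 2) ≤ R ^ d * R ^ 2 := by
    rw [← pow_add]
    exact pow_le_pow_left₀ (by positivity) (by linarith) _
  have hp2 : (R / 16) ^ d ≤ R ^ d := pow_le_pow_left₀ (by positivity) (by linarith) _
  -- for every b
  have key : ∀ b : ℝ, 0 < b →
      hInt u (ball x (R / 32)) ≤
        ENNReal.ofReal ((v + 128 * C0) * R ^ d * (Real.sqrt θ + b)) := by
    intro b hb
    set s := Real.sqrt θ with hs
    have hs0 : 0 ≤ s := Real.sqrt_nonneg _
    have hss : s ^ 2 = θ := Real.sq_sqrt hθ0
    have ha : 0 < (s + b) / R ^ 2 := by positivity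
    refine (hlc_young u _ _ ha).trans ?_
    refine (add_le_add_right (mul_le_mul_right h1 _) _).trans ?_
    rw [hvol, ← ENNReal.ofReal_mul (by positivity), ← ENNReal.ofReal_mul (by positivity),
      ← ENNReal.ofReal_mul (by positivity), ← ENNReal.ofReal_add (by positivity) (by positivity)]
    refine ENNReal.ofReal_le_ofReal ?_
    have e1 : (s + b) / R ^ 2 / 2 * ((R / 32) ^ (d + 2) * v) ≤ v * R ^ d * (s + b) := by
      calc (s + b) / R ^ 2 / 2 * ((R / 32) ^ (d + 2) * v) ≤
            (s + b) / R ^ 2 / 2 * ((R ^ d * R ^ 2) * v) := by gcongr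
        _ = v * R ^ d * (s + b) / 2 := by
            field_simp
        _ ≤ v * R ^ d * (s + b) := by
            have : 0 ≤ v * R ^ d * (s + b) := by positivity
            linarith
    have e3 : s ^ 2 / (s + b) ≤ s + b := by
      rw [div_le_iff₀ (by positivity)]
      nlinarith
    have e2 : 1 / (2 * ((s + b) / R ^ 2)) * (C0 / (R / 16) ^ 2 * (θ * (R / 16) ^ d)) ≤
        128 * C0 * R ^ d * (s + b) := by
      calc 1 / (2 * ((s + b) / R ^ 2)) * (C0 / (R / 16) ^ 2 * (θ * (R / 16) ^ d)) ≤
            1 / (2 * ((s + b) / R ^ 2)) * (C0 / (R / 16) ^ 2 * (θ * R ^ d)) := by gcongr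
        _ = 128 * C0 * R ^ d * (s ^ 2 / (s + b)) := by
            rw [← hss]
            field_simp
            ring
        _ ≤ _ := mul_le_mul_of_nonneg_left e3 (by positivity)
    calc _ ≤ v * R ^ d * (s + b) + 128 * C0 * R ^ d * (s + b) := add_le_add e1 e2
      _ = _ := by ring
  have hlim : Tendsto (fun b : ℝ =>
      ENNReal.ofReal ((v + 128 * C0) * R ^ d * (Real.sqrt θ + b)))
      (𝓝[>] 0) (𝓝 (ENNReal.ofReal ((v + 128 * C0) * R ^ d * (Real.sqrt θ + 0)))) := by
    refine ENNReal.tendsto_ofReal ?_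
    have hc : Continuous (fun b : ℝ => (v + 128 * C0) * R ^ d * (Real.sqrt θ + b)) := by fun_prop
    exact (hc.tendsto 0).mono_left nhdsWithin_le_nhds
  rw [add_zero] at hlim
  refine ge_of_tendsto hlim ?_
  filter_upwards [self_mem_nhdsWithin] with b hb
  exact key b hb

end Pool.Agent.H68.AN
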