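import Pool.Agent.H22.AN.TB1
import Pool.Agent.H80.AN.TargetsA

/-! Board allh_modules (MP_2697e3_an), row MLB: lower bound of the mass. -/

set_option autoImplicit false

namespace Pool.Agent.H68.AN.MLB

open MeasureTheory Metric Set Filter Topology Pool.Agent.H87.SN Pool.Agent.H22.AN
open scoped ContDiff RealInnerProductSpace ENNReal

theorem nsq_nonneg' {d m : ℕ} (L : V d →L[ℝ] E m) : 0 ≤ nsq L := by
  unfold nsq
  positivity

theorem rho_nonneg {d : ℕ} (x : V d) : 0 ≤ rho x := Real.sqrt_nonneg _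

theorem rho_sq {d : ℕ} (x : V d) : rho x ^ 2 = x 0 ^ 2 + x 1 ^ 2 := Real.sq_sqrt (by positivity)

theorem norm_sq {d : ℕ} (x : V d) : ‖x‖ ^ 2 = rho x ^ 2 + ‖zp x‖ ^ 2 := by
  rw [rho_sq, EuclideanSpace.real_norm_sq_eq, EuclideanSpace.real_norm_sq_eq, Fin.sum_univ_succ,
    Fin.sum_univ_succ, ← add_assoc]
  rfl

theorem zp_norm_le {d : ℕ} (x : V d) : ‖zp x‖ ≤ ‖x‖ := by
  have h := norm_sq x
  have h1 : ‖zp x‖ ^ 2 ≤ ‖x‖ ^ 2 := by nlinarith [sq_nonneg (rho x)]
  exact le_of_sq_le_sq h1 (norm_nonneg _)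

theorem zp_sub {d : ℕ} (x y : V d) : zp (x - y) = zp x - zp y := rfl

theorem zp_cont (d : ℕ) : Continuous (fun x : V d => zp x) := by
  refine (PiLp.continuous_toLp 2 _).comp ?_
  exact continuous_pi fun i => by fun_prop

theorem rho_cont (d : ℕ) : Continuous (fun x : V d => rho x) := by
  unfold rho
  fun_prop

end Pool.Agent.H68.AN.MLB

namespace Pool.Agent.H68.AN

open MeasureTheory Metric Set Filter Topology Pool.Agent.H87.SN Pool.Agent.H22.AN
open Pool.Agent.H68.AN.MLB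
open scoped ContDiff RealInnerProductSpace ENNReal

theorem pf_MLB (hBWF : T_BWF) (hCHF : T_CHF) (hMUF : T_MUF) : T_MLB := by
  intro d
  obtain ⟨-, C, hC0, hC⟩ := hBWF d
  obtain ⟨C', -, hCH⟩ := hCHF
  have h2c : ∃ c : ℝ, 0 < c ∧ c = 3 / 8 * (1 / 64) ^ d * (1 / (C * (1 / 16) ^ d)) :=
    ⟨_, by positivity, rfl⟩
  obtain ⟨c, hc0, hc⟩ := h2c
  refine ⟨c, hc0, ?_⟩
  intro m G hG x₀ h e r hh hh64 he hr hzp hrho hth hoc hcen
  have hr1 : 1 / 64 ≤ r := by rcases hr with h1 | h1 <;> rw [h1] <;> norm_num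
  have hr2 : r ≤ 1 / 32 := by rcases hr with h1 | h1 <;> rw [h1] <;> norm_num
  have hr0 : 0 < r := by linarith
  obtain ⟨-, -, -, hM4, hM5, -⟩ := hMUF d m G hG
  obtain ⟨c1, c2, c3, c4, -, -, -, -⟩ := hCH d h hh
  obtain ⟨b1, b2, b3, -, -, -, b7, -⟩ := hC (zp x₀) (1 / 16) (by norm_num)
  obtain ⟨f, hf⟩ : ∃ f : V d → ℝ, f = fun x => chh h x * bw (zp x₀) (1 / 16) (zp x) := ⟨_, rfl⟩
  have hfx : ∀ x, f x = chh h x * bw (zp x₀) (1 / 16) (zp x) := fun x => by rw [hf]
  have hfc : Continuous f := by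
    rw [hf]
    exact c1.continuous.mul (b1.continuous.comp (zp_cont d))
  have hf0 : ∀ x, 0 ≤ f x := fun x => by
    rw [hfx]
    exact mul_nonneg (c2 x).1 (b2 _).1
  have hf1 : ∀ x, f x ≤ C / (1 / 16) ^ d := fun x => by
    rw [hfx]
    calc chh h x * bw (zp x₀) (1 / 16) (zp x) ≤ 1 * (C / (1 / 16) ^ d) :=
          mul_le_mul (c2 x).2 (b2 _).2 (b2 _).1 zero_le_one
      _ = C / (1 / 16) ^ d := one_mul _
  have hI2 : IntegrableOn (fun x => f x * nsq (G x)) (ball (0 : V d) 2) :=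
    (hM5 f (ball 0 2) (C / (1 / 16) ^ d) hfc.measurable measurableSet_ball Subset.rfl
      (fun x _ => ⟨hf0 x, hf1 x⟩)).1
  have hInsq : IntegrableOn (fun x => nsq (G x)) (ball (0 : V d) 2) :=
    (hM4 _ measurableSet_ball Subset.rfl).1
  have hms : ms G h (zp x₀) (1 / 16) = ∫ x in ball (0 : V d) 2, f x * nsq (G x) := by
    unfold ms
    rw [hf]
  have hx0 : ‖x₀‖ ≤ 9 / 64 := by
    have h1 := norm_sq x₀
    have h2 : rho x₀ ^ 2 ≤ (1 / 8) ^ 2 := pow_le_pow_left₀ (rho_nonneg x₀) hrho 2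
    have h3 : ‖zp x₀‖ ^ 2 ≤ (1 / 64) ^ 2 := pow_le_pow_left₀ (norm_nonneg _) hzp.le 2
    have h4 : ‖x₀‖ ^ 2 ≤ (9 / 64) ^ 2 := by
      rw [h1]
      refine (add_le_add h2 h3).trans ?_
      norm_num
    exact le_of_sq_le_sq h4 (by norm_num)
  have hball : ball x₀ r ⊆ ball (0 : V d) (5 / 8) := by
    intro x hx
    rw [mem_ball, dist_zero_right]
    rw [mem_ball, dist_eq_norm] at hx
    have h1 : ‖x‖ ≤ ‖x - x₀‖ + ‖x₀‖ := by
      have := norm_add_le (x - x₀) x₀
      rwa [sub_add_cancel] at this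
    linarith
  have hb52 : ball (0 : V d) (5 / 8) ⊆ ball 0 2 := ball_subset_ball (by norm_num)
  have hmrho : Measurable (fun x : V d => rho x) := (rho_cont d).measurable
  have hmass : e * r ^ d ≤ ∫ x in ball x₀ r, nsq (G x) := by
    rw [← (hM4 _ measurableSet_ball (hball.trans hb52)).2]
    have h1 : e ≤ (mu G).real (ball x₀ r) / r ^ d := hth
    rwa [le_div_iff₀ (by positivity)] at h1
  obtain ⟨S, hS⟩ : ∃ S : Set (V d), S = ball x₀ r ∩ {x | rho x < h} := ⟨_, rfl⟩
  obtain ⟨S', hS'⟩ : ∃ S' : Set (V d), S' = ball x₀ r ∩ {x | h ≤ rho x} := ⟨_, rfl⟩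
  have hSm : MeasurableSet S := by
    rw [hS]
    exact measurableSet_ball.inter (measurableSet_lt hmrho measurable_const)
  have hSm' : MeasurableSet S' := by
    rw [hS']
    exact measurableSet_ball.inter (measurableSet_le measurable_const hmrho)
  have hSu : ball x₀ r = S ∪ S' := by
    rw [hS, hS', ← inter_union_distrib_left]
    symm
    rw [inter_eq_left]
    intro x _
    show rho x < h ∨ h ≤ rho x
    exact lt_or_ge _ _
  have hSd : Disjoint S S' := by
    rw [Set.disjoint_left]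
    intro x hx hx'
    rw [hS] at hx
    rw [hS'] at hx'
    have h1 : rho x < h := hx.2
    have h2 : h ≤ rho x := hx'.2
    exact absurd h1 (not_lt.2 h2)
  have hSs : S ⊆ ball (0 : V d) 2 := by
    rw [hS]
    exact inter_subset_left.trans (hball.trans hb52)
  have hSs' : S' ⊆ ball (0 : V d) 2 := by
    rw [hS']
    exact inter_subset_left.trans (hball.trans hb52)
  have hoc' : ∫ x in S', nsq (G x) ≤ e * r ^ d / 4 := by
    refine le_trans ?_ hoc
    unfold oc
    refine setIntegral_mono_set (hInsq.mono_set ?_) (Eventually.of_forall fun x => nsq_nonneg' _)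
      (LE.le.eventuallyLE ?_)
    · intro x hx
      exact hb52 hx.1
    · rw [hS']
      intro x hx
      exact ⟨hball hx.1, hx.2⟩
  have hcore : 3 / 4 * (e * r ^ d) ≤ ∫ x in S, nsq (G x) := by
    have h1 : ∫ x in ball x₀ r, nsq (G x) =
        (∫ x in S, nsq (G x)) + ∫ x in S', nsq (G x) := by
      rw [hSu]
      exact setIntegral_union hSd hSm' (hInsq.mono_set hSs) (hInsq.mono_set hSs')
    rw [h1] at hmass
    linarith
  have hfirst : 2 * c * e ≤ ∫ x in ball (0 : V d) 2, f x * nsq (G x) := by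
    have h1 : ∫ x in S, f x * nsq (G x) ≤ ∫ x in ball (0 : V d) 2, f x * nsq (G x) :=
      setIntegral_mono_set hI2 (Eventually.of_forall fun x => mul_nonneg (hf0 x) (nsq_nonneg' _))
        (LE.le.eventuallyLE hSs)
    have h2 : ∫ x in S, 1 / (C * (1 / 16) ^ d) * nsq (G x) ≤ ∫ x in S, f x * nsq (G x) := by
      refine setIntegral_mono_on ((hInsq.mono_set hSs).const_mul _) (hI2.mono_set hSs) hSm ?_
      intro x hx
      refine mul_le_mul_of_nonneg_right ?_ (nsq_nonneg' _)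
      rw [hS] at hx
      have h3 : rho x < h := hx.2
      rw [hfx, c3 x h3.le, one_mul]
      refine b7 _ ?_
      have h5 := hx.1
      rw [mem_ball, dist_eq_norm] at h5
      have h6 := zp_norm_le (x - x₀)
      rw [zp_sub] at h6
      linarith
    rw [integral_const_mul] at h2
    have h3 : 2 * c * e ≤ 1 / (C * (1 / 16) ^ d) * (3 / 4 * (e * r ^ d)) := by
      have h4 : (1 / 64 : ℝ) ^ d ≤ r ^ d := pow_le_pow_left₀ (by norm_num) hr1 d
      have h5 : 2 * c * e = 1 / (C * (1 / 16) ^ d) * (3 / 4 * (e * (1 / 64) ^ d)) := by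
        rw [hc]
        ring
      rw [h5]
      refine mul_le_mul_of_nonneg_left ?_ (by positivity)
      refine mul_le_mul_of_nonneg_left ?_ (by norm_num)
      exact mul_le_mul_of_nonneg_left h4 he
    refine h3.trans (le_trans (mul_le_mul_of_nonneg_left hcore (by positivity)) (h2.trans h1))
  rw [← hms] at hfirst
  have hw := hcen.w1 (zp x₀) (1 / 16) (by linarith) le_rfl (by linarith)
  have hw1 := le_abs_self (ms G h (zp x₀) (1 / 16) - ms G h 0 (1 / 16))
  linarith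

end Pool.Agent.H68.AN
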