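import Pool.Agent.H80.AN.TargetsA

/-! Mass of a thin tube (row TUB of the board allh). -/

set_option autoImplicit false

namespace Pool.Agent.H68.AN

open MeasureTheory Metric Set Filter Topology Pool.Agent.H87.SN Pool.Agent.H87.SH Pool.Agent.H87.AX
  Pool.Agent.H22.AN
open scoped ContDiff RealInnerProductSpace ENNReal

/-- an orthonormal basis which contains three given orthonormal vectors -/
private theorem tub_basis (k : ℕ) (n : Fin 3 → V (k + 1)) (hn : Orthonormal ℝ n) :
    ∃ b : OrthonormalBasis (Fin 3 ⊕ Fin k) ℝ (V (k + 1)), ∀ i, b (Sum.inl i) = n i := by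
  have hcard : Module.finrank ℝ (V (k + 1)) = Fintype.card (Fin 3 ⊕ Fin k) := by
    rw [finrank_euclideanSpace_fin]
    simp only [Fintype.card_sum, Fintype.card_fin]
    omega
  obtain ⟨v, hv⟩ : ∃ v : Fin 3 ⊕ Fin k → V (k + 1), v = Sum.elim n (fun _ => 0) := ⟨_, rfl⟩
  have hort : Orthonormal ℝ ((range (Sum.inl : Fin 3 → Fin 3 ⊕ Fin k)).domRestrict v) := by
    have hinj : Function.Injective (Sum.inl : Fin 3 → Fin 3 ⊕ Fin k) := Sum.inl_injective
    have h1 := hn.comp (Equiv.ofInjective _ hinj).symm (Equiv.injective _)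
    have h2 : (range (Sum.inl : Fin 3 → Fin 3 ⊕ Fin k)).domRestrict v =
        n ∘ (Equiv.ofInjective _ hinj).symm := by
      funext x
      obtain ⟨x, i, rfl⟩ := x
      have h3 : (Equiv.ofInjective _ hinj).symm ⟨Sum.inl i, i, rfl⟩ = i :=
        Equiv.ofInjective_symm_apply hinj i
      show v (Sum.inl i) = n ((Equiv.ofInjective _ hinj).symm ⟨Sum.inl i, i, rfl⟩)
      rw [h3, hv]
      rfl
    rw [h2]
    exact h1
  obtain ⟨b, hb⟩ := Orthonormal.exists_orthonormalBasis_extension_of_card_eq hcard hort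
  refine ⟨b, fun i => ?_⟩
  rw [hb (Sum.inl i) ⟨i, rfl⟩, hv]
  rfl

/-- the volume of a tube -/
private theorem tub_vol (k : ℕ) (n : Fin 3 → V (k + 1)) (hn : Orthonormal ℝ n)
    (a x : V (k + 1)) (r s : ℝ) (hr : 0 < r) (hs : 0 < s) :
    volume {c : V (k + 1) | c ∈ ball x (2 * s) ∧ ∀ i, |⟪c - a, n i⟫| < 2 * r} ≤
      ENNReal.ofReal ((4 * r) ^ 3 * (4 * s) ^ k) := by
  obtain ⟨b, hb⟩ := tub_basis k n hn
  obtain ⟨lo, hlo⟩ : ∃ lo : Fin 3 ⊕ Fin k → ℝ, lo = Sum.elim (fun i => ⟪b (Sum.inl i), a⟫ - 2 * r)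
      (fun i => ⟪b (Sum.inr i), x⟫ - 2 * s) := ⟨_, rfl⟩
  obtain ⟨hi, hhi⟩ : ∃ hi : Fin 3 ⊕ Fin k → ℝ, hi = Sum.elim (fun i => ⟪b (Sum.inl i), a⟫ + 2 * r)
      (fun i => ⟪b (Sum.inr i), x⟫ + 2 * s) := ⟨_, rfl⟩
  have hbox : volume (pi univ fun i => Ioo (lo i) (hi i)) =
      ENNReal.ofReal ((4 * r) ^ 3 * (4 * s) ^ k) := by
    rw [Real.volume_pi_Ioo, Fintype.prod_sum_type]
    have h1 : ∀ i : Fin 3, ENNReal.ofReal (hi (Sum.inl i) - lo (Sum.inl i)) =
        ENNReal.ofReal (4 * r) := by
      intro i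
      rw [hlo, hhi]
      simp only [Sum.elim_inl]
      congr 1
      ring
    have h2 : ∀ i : Fin k, ENNReal.ofReal (hi (Sum.inr i) - lo (Sum.inr i)) =
        ENNReal.ofReal (4 * s) := by
      intro i
      rw [hlo, hhi]
      simp only [Sum.elim_inr]
      congr 1
      ring
    simp only [h1, h2, Finset.prod_const, Finset.card_univ, Fintype.card_fin]
    rw [← ENNReal.ofReal_pow (by positivity), ← ENNReal.ofReal_pow (by positivity),
      ← ENNReal.ofReal_mul (by positivity)]
  have hmp : MeasurePreserving (fun c : V (k + 1) => (b.repr c).ofLp) volume volume :=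
    (PiLp.volume_preserving_ofLp (Fin 3 ⊕ Fin k)).comp b.measurePreserving_repr
  have hmeas : MeasurableSet (pi univ fun i => Ioo (lo i) (hi i)) :=
    MeasurableSet.univ_pi fun i => measurableSet_Ioo
  rw [← hbox, ← hmp.measure_preimage hmeas.nullMeasurableSet]
  apply measure_mono
  rintro c ⟨hc, hci⟩
  rw [Set.mem_preimage, Set.mem_univ_pi]
  intro i
  show (b.repr c) i ∈ Ioo (lo i) (hi i)
  rw [b.repr_apply_apply]
  cases i with
  | inl i =>
    have h1 := hci i
    rw [inner_sub_left, ← hb i, real_inner_comm (b (Sum.inl i)) c,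
      real_inner_comm (b (Sum.inl i)) a, abs_lt] at h1
    rw [hlo, hhi]
    simp only [Sum.elim_inl]
    constructor <;> linarith [h1.1, h1.2]
  | inr i =>
    have h1 : |⟪b (Sum.inr i), c - x⟫| < 2 * s := by
      refine (abs_real_inner_le_norm _ _).trans_lt ?_
      rw [b.norm_eq_one, one_mul, ← dist_eq_norm]
      exact hc
    rw [inner_sub_right, abs_lt] at h1
    rw [hlo, hhi]
    simp only [Sum.elim_inr]
    constructor <;> linarith [h1.1, h1.2]

theorem pf_TUB (hMUF : T_MUF) : T_TUB := by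
  intro d Λ hd hΛ
  obtain ⟨k, rfl⟩ : ∃ k, d = k + 1 := ⟨d - 1, by omega⟩
  obtain ⟨v, hv⟩ : ∃ v : ℝ, v = (volume (ball (0 : V (k + 1)) 1)).toReal := ⟨_, rfl⟩
  have hv0 : 0 < v := by
    rw [hv]
    exact ENNReal.toReal_pos (measure_ball_pos volume _ one_pos).ne' measure_ball_lt_top.ne
  refine ⟨64 * 4 ^ k * Λ / v, by positivity, ?_⟩
  intro m G hG n a x r s hn hr hrs hball
  have hs : 0 < s := by linarith
  have hfin := (hMUF (k + 1) m G hG.memG).1
  have : IsFiniteMeasure (mu G) := ⟨lt_top_iff_ne_top.mpr hfin⟩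
  obtain ⟨T, hT⟩ : ∃ T : Set (V (k + 1)),
      T = {y | y ∈ ball x s ∧ ∀ i, |⟪y - a, n i⟫| < r} := ⟨_, rfl⟩
  obtain ⟨T2, hT2⟩ : ∃ T2 : Set (V (k + 1)),
      T2 = {c | c ∈ ball x (2 * s) ∧ ∀ i, |⟪c - a, n i⟫| < 2 * r} := ⟨_, rfl⟩
  rw [← hT]
  have hopen : ∀ (q w : ℝ), IsOpen {y : V (k + 1) | y ∈ ball x q ∧ ∀ i, |⟪y - a, n i⟫| < w} := by
    intro q w
    have h1 : {y : V (k + 1) | y ∈ ball x q ∧ ∀ i, |⟪y - a, n i⟫| < w} =
        ball x q ∩ ⋂ i : Fin 3, {y | |⟪y - a, n i⟫| < w} := by
      ext y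
      simp only [Set.mem_ofPred_eq, Set.mem_inter_iff, Set.mem_iInter]
    rw [h1]
    refine isOpen_ball.inter (isOpen_iInter_of_finite fun i => ?_)
    exact isOpen_lt (by fun_prop) continuous_const
  have hTm : MeasurableSet T := by
    rw [hT]
    exact (hopen s r).measurableSet
  have hT2m : MeasurableSet T2 := by
    rw [hT2]
    exact (hopen (2 * s) (2 * r)).measurableSet
  -- balls of radius `r`
  have hsub : ∀ y ∈ T, ball y r ⊆ T2 := by
    intro y hy c hc
    rw [hT] at hy
    rw [hT2]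
    rw [mem_ball] at hc
    refine ⟨?_, fun i => ?_⟩
    · have h1 := mem_ball.mp hy.1
      rw [mem_ball]
      have := dist_triangle c y x
      linarith
    · have h1 := hy.2 i
      have h2 : |⟪c - y, n i⟫| ≤ dist c y := by
        refine (abs_real_inner_le_norm _ _).trans ?_
        rw [hn.1 i, mul_one, dist_eq_norm]
      have h3 : ⟪c - a, n i⟫ = ⟪c - y, n i⟫ + ⟪y - a, n i⟫ := by
        rw [← inner_add_left, sub_add_sub_cancel]
      rw [h3]
      refine (abs_add_le _ _).trans_lt ?_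
      linarith
  have hvolb : ∀ y : V (k + 1), volume (ball y r) = ENNReal.ofReal (r ^ (k + 3) * v) := by
    intro y
    rw [Measure.addHaar_ball_of_pos volume y hr]
    have h5 : Module.finrank ℝ (V (k + 1)) = k + 3 := by
      rw [finrank_euclideanSpace_fin]
    rw [h5, ENNReal.ofReal_mul (by positivity), hv, ENNReal.ofReal_toReal measure_ball_lt_top.ne]
  -- the double integral
  obtain ⟨S, hS⟩ : ∃ S : Set (V (k + 1) × V (k + 1)), S = {p | p.2 ∈ T2 ∧ dist p.2 p.1 < r} :=
    ⟨_, rfl⟩
  have hSm : MeasurableSet S := by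
    rw [hS]
    exact (hT2m.preimage measurable_snd).inter
      (isOpen_lt (continuous_snd.dist continuous_fst) continuous_const).measurableSet
  have hfm : Measurable fun p : V (k + 1) × V (k + 1) => (S.indicator 1 p : ℝ≥0∞) :=
    measurable_one.indicator hSm
  have h1 : mu G T * ENNReal.ofReal (r ^ (k + 3) * v) ≤
      ∫⁻ y, ∫⁻ c, (S.indicator 1 (y, c) : ℝ≥0∞) ∂volume ∂(mu G) := by
    calc mu G T * ENNReal.ofReal (r ^ (k + 3) * v)
        = ∫⁻ _y in T, ENNReal.ofReal (r ^ (k + 3) * v) ∂(mu G) := by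
          rw [setLIntegral_const, mul_comm]
      _ ≤ ∫⁻ y in T, ∫⁻ c, (S.indicator 1 (y, c) : ℝ≥0∞) ∂volume ∂(mu G) := by
          refine setLIntegral_mono' hTm fun y hy => ?_
          rw [← hvolb y, ← lintegral_indicator_one measurableSet_ball]
          refine lintegral_mono fun c => ?_
          by_cases hc : c ∈ ball y r
          · have h3 : (y, c) ∈ S := by
              rw [hS]
              exact ⟨hsub y hy hc, hc⟩
            rw [Set.indicator_of_mem hc, Set.indicator_of_mem h3]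
            exact le_rfl
          · rw [Set.indicator_of_notMem hc]
            exact zero_le
      _ ≤ _ := setLIntegral_le_lintegral _ _
  have h2 : ∫⁻ y, ∫⁻ c, (S.indicator 1 (y, c) : ℝ≥0∞) ∂volume ∂(mu G) ≤
      ENNReal.ofReal (Λ * r ^ (k + 1)) * volume T2 := by
    rw [lintegral_lintegral_swap hfm.aemeasurable]
    calc ∫⁻ c, ∫⁻ y, (S.indicator 1 (y, c) : ℝ≥0∞) ∂(mu G) ∂volume
        ≤ ∫⁻ c, T2.indicator (fun _ => ENNReal.ofReal (Λ * r ^ (k + 1))) c := by
          refine lintegral_mono fun c => ?_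
          by_cases hc : c ∈ T2
          · rw [Set.indicator_of_mem hc]
            have h3 : ∫⁻ y, (S.indicator 1 (y, c) : ℝ≥0∞) ∂(mu G) = mu G (ball c r) := by
              rw [← lintegral_indicator_one measurableSet_ball]
              apply lintegral_congr
              intro y
              by_cases hy : y ∈ ball c r
              · rw [Set.indicator_of_mem hy, Set.indicator_of_mem]
                · rfl
                · rw [hS]
                  exact ⟨hc, by rw [dist_comm]; exact hy⟩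
              · rw [Set.indicator_of_notMem hy, Set.indicator_of_notMem]
                rw [hS]
                rintro ⟨_, h4⟩
                exact hy (by rw [mem_ball, dist_comm]; exact h4)
            rw [h3, ← ofReal_measureReal]
            apply ENNReal.ofReal_le_ofReal
            refine hG.den c r hr ?_
            refine Subset.trans ?_ hball
            rw [hT2] at hc
            have h4 := mem_ball.mp hc.1
            exact ball_subset_ball' (by linarith)
          · rw [Set.indicator_of_notMem hc]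
            have h3 : ∀ y, (S.indicator 1 (y, c) : ℝ≥0∞) = 0 := by
              intro y
              apply Set.indicator_of_notMem
              rw [hS]
              rintro ⟨h4, _⟩
              exact hc h4
            simp only [h3, lintegral_zero, le_refl]
      _ = _ := by rw [lintegral_indicator_const hT2m]
  have h3 : volume T2 ≤ ENNReal.ofReal ((4 * r) ^ 3 * (4 * s) ^ k) := by
    rw [hT2]
    exact tub_vol k n hn a x r s hr hs
  have h4 : mu G T * ENNReal.ofReal (r ^ (k + 3) * v) ≤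
      ENNReal.ofReal (Λ * r ^ (k + 1)) * ENNReal.ofReal ((4 * r) ^ 3 * (4 * s) ^ k) :=
    h1.trans (h2.trans (mul_le_mul' le_rfl h3))
  have h5 : mu G T = ENNReal.ofReal ((mu G).real T) := (ofReal_measureReal).symm
  rw [h5, ← ENNReal.ofReal_mul measureReal_nonneg, ← ENNReal.ofReal_mul (by positivity),
    ENNReal.ofReal_le_ofReal_iff (by positivity)] at h4
  have h6 : k + 1 - 1 = k := by omega
  rw [h6]
  have h7 : 0 < r ^ (k + 3) * v := by positivity
  have h8 : Λ * r ^ (k + 1) * ((4 * r) ^ 3 * (4 * s) ^ k) =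
      (64 * 4 ^ k * Λ / v * r * s ^ k) * (r ^ (k + 3) * v) := by
    rw [mul_pow, mul_pow]
    field_simp
    ring
  rw [h8] at h4
  exact le_of_mul_le_mul_right h4 h7

end Pool.Agent.H68.AN
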